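import Pool.Agent.BSE.Stmts5

/-!
# Squad BSE, stage 3: rows `CSP` and `EMT`
-/

open MeasureTheory Matrix Finset
open scoped ComplexConjugate

namespace Pool.Agent.BSE.H35

open Pool.Agent.BSE

variable {n : ℕ}

theorem m6_swap (i j k : Fin n) : m6 i j k = m6 i k j := by
  unfold m6
  by_cases h1 : i = j
  · subst h1
    by_cases h2 : i = k
    · subst h2; simp
    · have h3 : ¬ k = i := fun h => h2 h.symm
      simp [h2, h3]
  · by_cases h2 : i = k
    · subst h2
      have h3 : ¬ j = i := fun h => h1 h.symm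
      simp [h1, h3]
    · by_cases h3 : j = k
      · subst h3; simp [h1]
      · have h4 : ¬ k = j := fun h => h3 h.symm
        simp [h1, h2, h3, h4]

theorem m6_pos (i j k : Fin n) : 0 < m6 i j k := by
  unfold m6
  have h1 : (0 : ℝ) ≤ if i = j then 1 else 0 := by split_ifs <;> norm_num
  have h2 : (0 : ℝ) ≤ if j = k then 1 else 0 := by split_ifs <;> norm_num
  have h3 : (0 : ℝ) ≤ if i = k then 1 else 0 := by split_ifs <;> norm_num
  have h4 : (0 : ℝ) ≤ if i = j ∧ j = k then 2 else 0 := by split_ifs <;> norm_num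
  linarith

theorem nF_swap {φ : Fin n → Fin n → Fin n → ℝ} (hφ : Mix3 φ) (x y z : Fin n) :
    nF φ x y z = nF φ x z y := by
  unfold nF
  rw [m6_swap x y z, hφ.1 x y z]

theorem vb_neg (B : Finset (Fin n)) (g : Fin n → ℝ) : vb B (fun x => -g x) = vb B g := by
  unfold vb
  rw [Finset.sum_neg_distrib]
  congr 1
  · exact Finset.sum_congr rfl fun x _ => by ring
  · rw [neg_sq]

theorem split_sum (B : Finset (Fin n)) (f : Fin n → ℝ) :
    ∑ y, f y = ∑ y ∈ Bᶜ, f y + ∑ y ∈ B, f y := by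
  rw [add_comm]
  exact (Finset.sum_add_sum_compl B f).symm

theorem split_sum2 (B : Finset (Fin n)) (g : Fin n → Fin n → ℝ) :
    ∑ y, ∑ z, g y z = ∑ y ∈ Bᶜ, ∑ z ∈ Bᶜ, g y z + ∑ w ∈ Bᶜ, ∑ y ∈ B, (g y w + g w y) +
      ∑ y ∈ B, ∑ z ∈ B, g y z := by
  have h1 : ∑ y, ∑ z, g y z = ∑ y, (∑ z ∈ Bᶜ, g y z + ∑ z ∈ B, g y z) :=
    Finset.sum_congr rfl fun y _ => split_sum B _
  rw [h1, split_sum B]
  have h2 : ∑ w ∈ Bᶜ, ∑ y ∈ B, (g y w + g w y) =
      ∑ y ∈ B, ∑ w ∈ Bᶜ, g y w + ∑ w ∈ Bᶜ, ∑ y ∈ B, g w y := by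
    rw [Finset.sum_comm (s := B) (t := Bᶜ), ← Finset.sum_add_distrib]
    exact Finset.sum_congr rfl fun w _ => Finset.sum_add_distrib
  rw [h2, Finset.sum_add_distrib, Finset.sum_add_distrib]
  ring

/-- CSP. -/
theorem csp : CSPStmt := by
  intro n B φ hφ
  have e : ce3 B φ = ∑ y, ∑ z, (3 / 4 * vb B (fun x => nF φ x y z) +
      1 / 12 * vb B (fun x => nF φ y x z - nF φ z x y)) +
      (3 / 2 + 3 / (4 * (n : ℝ))) * ∑ y, vb B (fun x => nF φ x y y) := by
    unfold ce3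
    have h : ∑ y, ∑ z, (3 / 4 * vb B (fun x => nF φ x y z) +
        1 / 12 * vb B (fun x => nF φ y x z - nF φ z x y)) =
        3 / 4 * ∑ y, ∑ z, vb B (fun x => nF φ x y z) +
          1 / 12 * ∑ y, ∑ z, vb B (fun x => nF φ y x z - nF φ z x y) := by
      rw [Finset.mul_sum, Finset.mul_sum, ← Finset.sum_add_distrib]
      apply Finset.sum_congr rfl
      intro y _
      rw [Finset.sum_add_distrib, Finset.mul_sum, Finset.mul_sum]
    rw [h]
    ring
  rw [e, split_sum2 B, split_sum B (fun y => vb B (fun x => nF φ x y y))]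
  have m : ∑ w ∈ Bᶜ, ∑ y ∈ B, ((3 / 4 * vb B (fun x => nF φ x y w) +
        1 / 12 * vb B (fun x => nF φ y x w - nF φ w x y)) +
        (3 / 4 * vb B (fun x => nF φ x w y) + 1 / 12 * vb B (fun x => nF φ w x y - nF φ y x w))) =
      ∑ w ∈ Bᶜ, ∑ y ∈ B, (3 / 2 * vb B (fun x => nF φ x y w) +
        1 / 6 * vb B (fun x => nF φ y x w - nF φ w x y)) := by
    apply Finset.sum_congr rfl
    intro w _
    apply Finset.sum_congr rfl
    intro y _
    have h1 : (fun x => nF φ x w y) = fun x => nF φ x y w := by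
      funext x; exact nF_swap hφ x w y
    have h2 : vb B (fun x => nF φ w x y - nF φ y x w) =
        vb B (fun x => nF φ y x w - nF φ w x y) := by
      rw [← vb_neg B (fun x => nF φ y x w - nF φ w x y)]
      congr 1
      funext x; ring
    rw [h1, h2]
    ring
  rw [m]
  ring

/-- EMT. -/
theorem emt (q3b : Q3BStmt) (cnb : CNBStmt) : EMTStmt := by
  intro n hn φ hφ
  have hne : (Finset.univ : Finset (Fin n)).Nonempty := ⟨⟨0, hn⟩, Finset.mem_univ _⟩
  have hq := q3b n Finset.univ hne φ hφ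
  obtain ⟨c1, c2, c3, -⟩ := cnb n φ hφ
  have hcard : (((Finset.univ : Finset (Fin n)).card : ℕ) : ℝ) = (n : ℝ) := by
    rw [Finset.card_univ, Fintype.card_fin]
  have hG : ∀ y, nF φ y y y = 0 := by
    intro y
    have := hφ.2.1 y y y
    unfold nF
    have h0 : φ y y y = 0 := by linarith
    rw [h0, zero_div]
  have c1' : ∀ y z, ∑ x, nF φ x y z = (nF φ y z z + nF φ z y y) / 2 := by
    intro y z
    by_cases h : y = z
    · subst h
      rw [c2, hG]; norm_num
    · exact c1 y z h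
  have hno : no3 φ = ∑ x, ∑ y, ∑ z, m6 x y z * nF φ x y z ^ 2 := by
    unfold no3
    apply Finset.sum_congr rfl; intro x _
    apply Finset.sum_congr rfl; intro y _
    apply Finset.sum_congr rfl; intro z _
    have : φ x y z = m6 x y z * nF φ x y z := by
      unfold nF
      rw [mul_div_cancel₀]
      exact (m6_pos x y z).ne'
    rw [this]
    have h2 : nF (fun i j k => m6 i j k * nF φ i j k) x y z = nF φ x y z := by
      show m6 x y z * nF φ x y z / m6 x y z = nF φ x y z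
      rw [mul_div_cancel_left₀]
      exact (m6_pos x y z).ne'
    ring
  have hce : ce3 Finset.univ φ = (∑ y, ∑ z, (3 / 4 * vb Finset.univ (fun x => nF φ x y z) +
        1 / 12 * vb Finset.univ (fun x => nF φ y x z - nF φ z x y)) +
      (3 / 2 + 3 / (4 * (n : ℝ))) * ∑ y, vb Finset.univ (fun x => nF φ x y y)) := by
    rw [csp n Finset.univ φ hφ, Finset.compl_univ]
    simp only [Finset.sum_empty, mul_zero, add_zero, zero_add]
  rw [hce, hno]
  set S := ∑ x, ∑ y, ∑ z, m6 x y z * nF φ x y z ^ 2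
  set C := (∑ y, ∑ z, (3 / 4 * vb Finset.univ (fun x => nF φ x y z) +
        1 / 12 * vb Finset.univ (fun x => nF φ y x z - nF φ z x y)) +
      (3 / 2 + 3 / (4 * (n : ℝ))) * ∑ y, vb Finset.univ (fun x => nF φ x y y))
  have key : -(3 / (4 * (n : ℝ))) * ∑ x, ∑ y, nF φ x y y ^ 2 +
    3 / (4 * (((Finset.univ : Finset (Fin n)).card : ℕ) : ℝ)) * ∑ y, ∑ z, (∑ x, nF φ x y z) ^ 2 +
    1 / (12 * (((Finset.univ : Finset (Fin n)).card : ℕ) : ℝ)) *
      ∑ y, ∑ z, (∑ x, (nF φ y x z - nF φ z x y)) ^ 2 +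
    (3 / 2 + 3 / (4 * (n : ℝ))) / (((Finset.univ : Finset (Fin n)).card : ℕ) : ℝ) *
      ∑ y, (∑ x, nF φ x y y) ^ 2 = 0 := by
    rw [hcard]
    have e1 : ∑ y, ∑ z, (∑ x, nF φ x y z) ^ 2 =
        ∑ y, ∑ z, ((nF φ y z z + nF φ z y y) / 2) ^ 2 := by
      apply Finset.sum_congr rfl; intro y _
      apply Finset.sum_congr rfl; intro z _
      rw [c1']
    have e2 : ∑ y, ∑ z, (∑ x, (nF φ y x z - nF φ z x y)) ^ 2 =
        ∑ y, ∑ z, (-(3 / 2) * (nF φ y z z - nF φ z y y)) ^ 2 := by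
      apply Finset.sum_congr rfl; intro y _
      apply Finset.sum_congr rfl; intro z _
      rw [c3]
    have e3 : ∑ y, (∑ x, nF φ x y y) ^ 2 = 0 := by
      apply Finset.sum_eq_zero
      intro y _
      rw [c2]; norm_num
    rw [e1, e2, e3]
    set G : Fin n → Fin n → ℝ := fun y z => nF φ y z z
    have f1 : ∑ y, ∑ z, ((nF φ y z z + nF φ z y y) / 2) ^ 2 =
        1 / 4 * (∑ y, ∑ z, G y z ^ 2) + 1 / 2 * (∑ y, ∑ z, G y z * G z y) +
          1 / 4 * ∑ y, ∑ z, G z y ^ 2 := by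
      rw [Finset.mul_sum, Finset.mul_sum, Finset.mul_sum, ← Finset.sum_add_distrib,
        ← Finset.sum_add_distrib]
      apply Finset.sum_congr rfl; intro y _
      rw [Finset.mul_sum, Finset.mul_sum, Finset.mul_sum, ← Finset.sum_add_distrib,
        ← Finset.sum_add_distrib]
      apply Finset.sum_congr rfl; intro z _
      simp only [G]
      ring
    have f2 : ∑ y, ∑ z, (-(3 / 2) * (nF φ y z z - nF φ z y y)) ^ 2 =
        9 / 4 * (∑ y, ∑ z, G y z ^ 2) - 9 / 2 * (∑ y, ∑ z, G y z * G z y) +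
          9 / 4 * ∑ y, ∑ z, G z y ^ 2 := by
      rw [Finset.mul_sum, Finset.mul_sum, Finset.mul_sum, ← Finset.sum_sub_distrib,
        ← Finset.sum_add_distrib]
      apply Finset.sum_congr rfl; intro y _
      rw [Finset.mul_sum, Finset.mul_sum, Finset.mul_sum, ← Finset.sum_sub_distrib,
        ← Finset.sum_add_distrib]
      apply Finset.sum_congr rfl; intro z _
      simp only [G]
      ring
    have f3 : ∑ y, ∑ z, G z y ^ 2 = ∑ y, ∑ z, G y z ^ 2 := Finset.sum_comm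
    have f4 : ∑ x, ∑ y, nF φ x y y ^ 2 = ∑ y, ∑ z, G y z ^ 2 := rfl
    rw [f1, f2, f3, f4]
    have hn' : (n : ℝ) ≠ 0 := by exact_mod_cast hn.ne'
    field_simp
    ring
  have : S - C = 0 := by
    rw [hq]
    exact key
  linarith

end Pool.Agent.BSE.H35
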