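import Pool.Agent.BSE.Stmts5

/-!
# Squad BSE, stage 3: row `EAB` (alternating tensors)
-/

open MeasureTheory Matrix Finset
open scoped ComplexConjugate

namespace Pool.Agent.BSE.H35

open Pool.Agent.BSE

variable {n : ℕ}

theorem vb_nonneg (B : Finset (Fin n)) (g : Fin n → ℝ) : 0 ≤ vb B g := by
  unfold vb
  have h : (∑ x ∈ B, g x) ^ 2 ≤ B.card * ∑ x ∈ B, g x ^ 2 := sq_sum_le_card_mul_sum_sq
  rcases Nat.eq_zero_or_pos B.card with h0 | h0
  · rw [Finset.card_eq_zero] at h0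
    subst h0
    simp
  · have hb : (0 : ℝ) < B.card := by exact_mod_cast h0
    rw [sub_nonneg, div_le_iff₀ hb]
    linarith [mul_comm (B.card : ℝ) (∑ x ∈ B, g x ^ 2)]

theorem vb_le (B : Finset (Fin n)) (g : Fin n → ℝ) : vb B g ≤ ∑ x ∈ B, g x ^ 2 := by
  unfold vb
  have : 0 ≤ (∑ x ∈ B, g x) ^ 2 / (B.card : ℝ) := by positivity
  linarith

theorem vb_eq (B : Finset (Fin n)) (g : Fin n → ℝ) :
    vb B g = ∑ x ∈ B, g x * (g x - 1 / (B.card : ℝ) * ∑ y ∈ B, g y) := by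
  unfold vb
  have : ∑ x ∈ B, g x * (g x - 1 / (B.card : ℝ) * ∑ y ∈ B, g y) =
      ∑ x ∈ B, g x ^ 2 - (∑ x ∈ B, g x) * (1 / (B.card : ℝ) * ∑ y ∈ B, g y) := by
    rw [Finset.sum_mul, ← Finset.sum_sub_distrib]
    exact Finset.sum_congr rfl fun x _ => by ring
  rw [this]
  ring

theorem antisym_sum (B : Finset (Fin n)) (f : Fin n → Fin n → ℝ) (h : ∀ i j, f i j = -f j i) :
    ∑ i ∈ B, ∑ j ∈ B, f i j = 0 := by
  have h1 : ∑ i ∈ B, ∑ j ∈ B, f i j = ∑ i ∈ B, ∑ j ∈ B, f j i := Finset.sum_comm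
  have h2 : ∑ i ∈ B, ∑ j ∈ B, f j i = -∑ i ∈ B, ∑ j ∈ B, f i j := by
    rw [← Finset.sum_neg_distrib]
    apply Finset.sum_congr rfl; intro i _
    rw [← Finset.sum_neg_distrib]
    exact Finset.sum_congr rfl fun j _ => h j i
  linarith

section

variable {φ : Fin n → Fin n → Fin n → ℝ} (hφ : Alt3 φ)

include hφ

theorem alt13 (i j k : Fin n) : φ i j k = -φ k j i := by
  rw [hφ.1 i j k, hφ.2.1 j i k, hφ.1 j k i]
  ring

theorem nF_eq (i j k : Fin n) : nF φ i j k = φ i j k := by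
  unfold nF
  by_cases h1 : i = j
  · subst h1
    have : φ i i k = 0 := by linarith [hφ.1 i i k]
    rw [this, zero_div]
  · by_cases h2 : j = k
    · subst h2
      have : φ i j j = 0 := by linarith [hφ.2.1 i j j]
      rw [this, zero_div]
    · by_cases h3 : i = k
      · subst h3
        have : φ i j i = 0 := by linarith [alt13 hφ i j i]
        rw [this, zero_div]
      · have : m6 i j k = 1 := by
          unfold m6
          simp [h1, h2, h3]
        rw [this, div_one]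

theorem s12 (B : Finset (Fin n)) (k : Fin n) : ∑ i ∈ B, ∑ j ∈ B, φ i j k = 0 :=
  antisym_sum B (fun i j => φ i j k) fun i j => hφ.1 i j k

theorem s23 (B : Finset (Fin n)) (i : Fin n) : ∑ j ∈ B, ∑ k ∈ B, φ i j k = 0 :=
  antisym_sum B (fun j k => φ i j k) fun j k => hφ.2.1 i j k

theorem s13 (B : Finset (Fin n)) (j : Fin n) : ∑ i ∈ B, ∑ k ∈ B, φ i j k = 0 :=
  antisym_sum B (fun i k => φ i j k) fun i k => alt13 hφ i j k

end

/-- the summand of the energy -/
noncomputable def tt (B : Finset (Fin n)) (φ : Fin n → Fin n → Fin n → ℝ) (i j k : Fin n) : ℝ :=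
  φ i j k * (φ i j k - p3 B φ i j k)

theorem rb_in {B : Finset (Fin n)} {g : Fin n → ℝ} {i : Fin n} (h : i ∈ B) :
    rb B g i = ∑ j ∈ B, g j := if_pos h

theorem rb_out {B : Finset (Fin n)} {g : Fin n → ℝ} {i : Fin n} (h : i ∉ B) :
    rb B g i = g i := if_neg h

variable {φ : Fin n → Fin n → Fin n → ℝ} {B : Finset (Fin n)} {i j k : Fin n}

theorem tt000 (hi : i ∉ B) (hj : j ∉ B) (hk : k ∉ B) : tt B φ i j k = 0 := by
  unfold tt p3 mom
  rw [rb_out hi, rb_out hj, rb_out hk, if_neg hi, if_neg hj, if_neg hk]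
  ring

theorem tt100 (hi : i ∈ B) (hj : j ∉ B) (hk : k ∉ B) :
    tt B φ i j k = φ i j k * (φ i j k - 1 / (B.card : ℝ) * ∑ x ∈ B, φ x j k) := by
  unfold tt p3 mom
  rw [rb_in hi, if_pos hi, if_neg hj, if_neg hk]
  congr 3
  apply Finset.sum_congr rfl
  intro x _
  rw [rb_out hj, rb_out hk]

theorem tt010 (hi : i ∉ B) (hj : j ∈ B) (hk : k ∉ B) :
    tt B φ i j k = φ i j k * (φ i j k - 1 / (B.card : ℝ) * ∑ x ∈ B, φ i x k) := by
  unfold tt p3 mom
  rw [rb_out hi, rb_in hj, if_neg hi, if_pos hj, if_neg hk]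
  congr 3
  apply Finset.sum_congr rfl
  intro x _
  rw [rb_out hk]

theorem tt001 (hi : i ∉ B) (hj : j ∉ B) (hk : k ∈ B) :
    tt B φ i j k = φ i j k * (φ i j k - 1 / (B.card : ℝ) * ∑ x ∈ B, φ i j x) := by
  unfold tt p3 mom
  rw [rb_out hi, rb_out hj, rb_in hk, if_neg hi, if_neg hj, if_pos hk]

theorem tt110 (hφ : Alt3 φ) (hi : i ∈ B) (hj : j ∈ B) (hk : k ∉ B) :
    tt B φ i j k = φ i j k ^ 2 := by
  unfold tt p3
  have : rb B (fun i' => rb B (fun j' => rb B (fun k' => φ i' j' k') k) j) i = 0 := by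
    rw [rb_in hi, ← s12 hφ B k]
    apply Finset.sum_congr rfl
    intro x _
    rw [rb_in hj]
    apply Finset.sum_congr rfl
    intro y _
    rw [rb_out hk]
  rw [this]; ring

theorem tt101 (hφ : Alt3 φ) (hi : i ∈ B) (hj : j ∉ B) (hk : k ∈ B) :
    tt B φ i j k = φ i j k ^ 2 := by
  unfold tt p3
  have : rb B (fun i' => rb B (fun j' => rb B (fun k' => φ i' j' k') k) j) i = 0 := by
    rw [rb_in hi, ← s13 hφ B j]
    apply Finset.sum_congr rfl
    intro x _
    rw [rb_out hj, rb_in hk]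
  rw [this]; ring

theorem tt011 (hφ : Alt3 φ) (hi : i ∉ B) (hj : j ∈ B) (hk : k ∈ B) :
    tt B φ i j k = φ i j k ^ 2 := by
  unfold tt p3
  have : rb B (fun i' => rb B (fun j' => rb B (fun k' => φ i' j' k') k) j) i = 0 := by
    rw [rb_out hi, rb_in hj, ← s23 hφ B i]
    apply Finset.sum_congr rfl
    intro x _
    rw [rb_in hk]
  rw [this]; ring

theorem tt111 (hφ : Alt3 φ) (hi : i ∈ B) (hj : j ∈ B) (hk : k ∈ B) :
    tt B φ i j k = φ i j k ^ 2 := by
  unfold tt p3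
  have : rb B (fun i' => rb B (fun j' => rb B (fun k' => φ i' j' k') k) j) i = 0 := by
    rw [rb_in hi]
    apply Finset.sum_eq_zero
    intro x _
    rw [rb_in hj, ← s23 hφ B x]
    apply Finset.sum_congr rfl
    intro y _
    rw [rb_in hk]
  rw [this]; ring

theorem part1 (hφ : Alt3 φ) (j k : Fin n) : vb B (fun x => φ x j k) ≤ ∑ i ∈ B, tt B φ i j k := by
  by_cases hj : j ∈ B
  · have : ∑ i ∈ B, tt B φ i j k = ∑ i ∈ B, φ i j k ^ 2 := by
      apply Finset.sum_congr rfl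
      intro i hi
      by_cases hk : k ∈ B
      · exact tt111 hφ hi hj hk
      · exact tt110 hφ hi hj hk
    rw [this]
    exact vb_le B _
  · by_cases hk : k ∈ B
    · have : ∑ i ∈ B, tt B φ i j k = ∑ i ∈ B, φ i j k ^ 2 := by
        apply Finset.sum_congr rfl
        intro i hi
        exact tt101 hφ hi hj hk
      rw [this]
      exact vb_le B _
    · rw [vb_eq]
      apply le_of_eq
      apply Finset.sum_congr rfl
      intro i hi
      exact (tt100 hi hj hk).symm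

theorem part2 (hφ : Alt3 φ) (hi : i ∉ B) : 0 ≤ ∑ j, ∑ k, tt B φ i j k := by
  have h1 : ∑ j, ∑ k, tt B φ i j k = ∑ j, (∑ k ∈ B, tt B φ i j k + ∑ k ∈ Bᶜ, tt B φ i j k) :=
    Finset.sum_congr rfl fun j _ => (Finset.sum_add_sum_compl B _).symm
  rw [h1, ← Finset.sum_add_sum_compl B, Finset.sum_add_distrib, Finset.sum_add_distrib]
  have a1 : 0 ≤ ∑ j ∈ B, ∑ k ∈ B, tt B φ i j k := by
    apply Finset.sum_nonneg; intro j hj
    apply Finset.sum_nonneg; intro k hk
    rw [tt011 hφ hi hj hk]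
    positivity
  have a2 : 0 ≤ ∑ j ∈ B, ∑ k ∈ Bᶜ, tt B φ i j k := by
    rw [Finset.sum_comm]
    apply Finset.sum_nonneg; intro k hk
    rw [Finset.mem_compl] at hk
    have := vb_nonneg B (fun x => φ i x k)
    rw [vb_eq] at this
    refine le_trans this (le_of_eq ?_)
    apply Finset.sum_congr rfl
    intro j hj
    exact (tt010 hi hj hk).symm
  have a3 : 0 ≤ ∑ j ∈ Bᶜ, ∑ k ∈ B, tt B φ i j k := by
    apply Finset.sum_nonneg; intro j hj
    rw [Finset.mem_compl] at hj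
    have := vb_nonneg B (fun x => φ i j x)
    rw [vb_eq] at this
    refine le_trans this (le_of_eq ?_)
    apply Finset.sum_congr rfl
    intro k hk
    exact (tt001 hi hj hk).symm
  have a4 : 0 ≤ ∑ j ∈ Bᶜ, ∑ k ∈ Bᶜ, tt B φ i j k := by
    apply Finset.sum_nonneg; intro j hj
    apply Finset.sum_nonneg; intro k hk
    rw [Finset.mem_compl] at hj hk
    rw [tt000 hi hj hk]
  linarith

/-- EAB. -/
theorem eab : EABStmt := by
  intro n B φ hφ
  have e : en3 B φ = ∑ i, ∑ j, ∑ k, tt B φ i j k := by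
    unfold en3 tt
    apply Finset.sum_congr rfl; intro i _
    apply Finset.sum_congr rfl; intro j _
    apply Finset.sum_congr rfl; intro k _
    rw [nF_eq hφ]
  have e2 : ∑ i, ∑ j, ∑ k, tt B φ i j k =
      ∑ i ∈ B, ∑ j, ∑ k, tt B φ i j k + ∑ i ∈ Bᶜ, ∑ j, ∑ k, tt B φ i j k :=
    (Finset.sum_add_sum_compl B _).symm
  rw [e, e2]
  have h1 : ∑ y, ∑ z, vb B (fun x => φ x y z) ≤ ∑ i ∈ B, ∑ j, ∑ k, tt B φ i j k := by
    have h0 : ∑ i ∈ B, ∑ j, ∑ k, tt B φ i j k = ∑ j, ∑ k, ∑ i ∈ B, tt B φ i j k := by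
      rw [Finset.sum_comm]
      exact Finset.sum_congr rfl fun j _ => Finset.sum_comm
    rw [h0]
    apply Finset.sum_le_sum; intro j _
    apply Finset.sum_le_sum; intro k _
    exact part1 hφ j k
  have h2 : 0 ≤ ∑ i ∈ Bᶜ, ∑ j, ∑ k, tt B φ i j k := by
    apply Finset.sum_nonneg
    intro i hi
    rw [Finset.mem_compl] at hi
    exact part2 hφ hi
  linarith

end Pool.Agent.BSE.H35
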